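import Pool.Agent.H4.HT3

/-! # The Sato-Tate law for almost all twists by powers of a Hecke character, at all scales

`F` is an imaginary quadratic field, `ψ` a unitary Hecke character of `F` modulo `𝔪` of infinite order,
`ψ((α)) = (σ(α) / |σ(α)|)^m` for `α ≡ 1` modulo `𝔪`, `m ≥ 1`, and `K` a number field containing `F`. Let
`V` be an odd-weight compatible family over `K` as in the problem, `x_v` its classes, elements of a compact
group `H` which contains the unit circle through a central homomorphism `ι : U(1) → H`, for instance a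
unitary group or `ST_K × U(1)`. The twist of `V` by the (algebraic) character `ψ^k ∘ N_{K/F}` is, up to
the normalization of the weights, a family of the same kind, of odd weight for a suitable normalization,
and its class at `v` is that of `ι(ψ(N v)^k) x_v`. The Sato-Tate laws predict that the classes are
equidistributed in the cosets of `ι(U(1))`.

Without any hypothesis on `V` we prove this for almost all `k`, at all scales from a power of `log k` on:
see `result`. -/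

set_option autoImplicit false

namespace Pool.Agent.Results.MP_4c4ce6_nt.AlmostAllHeckeTwists

open NumberField IsDedekindDomain MeasureTheory
open Pool.Agent.H4 (IsHecke avg Equidistributed IsTwist circleAvg)

/-- **The Sato-Tate law for almost all Hecke twists.** Let `F` be an imaginary quadratic field, `K` a
number field containing it, `ψ` a unitary Hecke character of `F` modulo `𝔪` with
`ψ((α)) = (σ(α) / |σ(α)|)^m` for `α ≡ 1` modulo `𝔪`, `m ≥ 1`, and `A > 1`.

I. Let `H` be a compact group, `ι : U(1) → H` a continuous central homomorphism, `𝓕` a compact set of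
continuous class functions on `H`, `0 < c < 1/2` and `η > 0`. There are `δ > 0` and `C` such that for all
`x_v ∈ H` (`v` a prime of `K`) there is a set `E` of integers, at most `C X^(1 - δ)` of them up to `X` for
all `X ≥ 1`, with the following properties for all `k ≥ 1` not in `E`, all `y_v` in the classes of the twist
by `ψ^k` and all `N` with `(log k)^A ≤ N ≤ exp (k^c)`:

1. for all `f ∈ 𝓕` the average of the `f(y_v)` over the primes of norm at most `N` differs by at most `η`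
   from the average over the `v` of the averages of `f` over the cosets `ι(U(1)) x_v`;
2. if the `x_v` are equidistributed for a probability measure `μ` (for instance, if the Sato-Tate law is
   known for the given family), then the average of the `f(y_v)` differs by at most `η` from the integral
   over `μ` of the averages of `f` over the cosets of `ι(U(1))`, as soon as `N ≥ N₀`, where `N₀` does not
   depend on `k`.

II. For all `b > 0` there are `θ, δ > 0` and `C` such that for all groups `H`, `ι : U(1) → H`, `x_v ∈ H` and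
all sequences of class functions `Φ_j` with `|Φ_j| ≤ 1` and `Φ_j(ι(a) h) = a^{w_j} Φ_j(h)` (for instance the
normalized irreducible characters) there is such a set `E`, for which for `(log k)^A ≤ N ≤ k^b` and all `j`
the difference is at most `(j + 1) (|w_j| + 1) N^(-θ)`.

III. The condition `A > 1` cannot be weakened to `A = 1`: for all `B > 0`, `0 < δ < 1`, `ε > 0` and all large
`X` at least `X^(1 - δ)` of the `k ≤ X` are such that `ψ(N v)^k` is within `ε` of `1` for all primes `v` of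
norm at most `B log X`. -/
theorem result (F K : Type) [Field F] [NumberField F] [Field K] [NumberField K] [Algebra F K]
    (hF : Module.finrank ℚ F = 2) (σ : F →+* ℂ) (hσ : ¬ ComplexEmbedding.IsReal σ)
    (𝔪 : Ideal (𝓞 F)) (h𝔪 : 𝔪 ≠ ⊥) (m : ℕ) (hm : 0 < m) (ψ : Ideal (𝓞 F) → Circle)
    (hψ : IsHecke F 𝔪 σ m ψ) (A : ℝ) (hA : 1 < A) :
    (∀ (H : Type) [Group H] [TopologicalSpace H] [IsTopologicalGroup H] [CompactSpace H]
      [MeasurableSpace H] [BorelSpace H] (ι : Circle →* H), Continuous ι →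
      (∀ a h, ι a * h = h * ι a) →
      ∀ 𝓕 : Set C(H, ℂ), IsCompact 𝓕 → (∀ f ∈ 𝓕, ∀ g h, f (g * h * g⁻¹) = f h) →
      ∀ c η : ℝ, 0 < c → c < 1 / 2 → 0 < η →
      ∃ δ : ℝ, 0 < δ ∧ ∃ C : ℝ, ∀ x : HeightOneSpectrum (𝓞 K) → H, ∃ E : Set ℕ,
        (∀ X : ℕ, 1 ≤ X → (({k : ℕ | k ∈ E ∧ 1 ≤ k ∧ k ≤ X}.ncard : ℕ) : ℝ) ≤
          C * (X : ℝ) ^ (1 - δ)) ∧
        (∀ k : ℕ, 1 ≤ k → k ∉ E → ∀ y, IsTwist 𝔪 ψ ι k x y →
          ∀ N : ℕ, (Real.log k) ^ A ≤ N → Real.log N ≤ (k : ℝ) ^ c → ∀ f ∈ 𝓕,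
            ‖avg (fun v => f (y v)) N - avg (fun v => circleAvg fun a => f (ι a * x v)) N‖ ≤ η) ∧
        (∀ (μ : Measure H) [IsProbabilityMeasure μ], Equidistributed x μ → ∃ N₀ : ℕ,
          ∀ k : ℕ, 1 ≤ k → k ∉ E → ∀ y, IsTwist 𝔪 ψ ι k x y →
            ∀ N : ℕ, (Real.log k) ^ A ≤ N → Real.log N ≤ (k : ℝ) ^ c → N₀ ≤ N → ∀ f ∈ 𝓕,
              ‖avg (fun v => f (y v)) N - ∫ h, circleAvg (fun a => f (ι a * h)) ∂μ‖ ≤ η)) ∧
    (∀ b : ℝ, 0 < b → ∃ θ : ℝ, 0 < θ ∧ ∃ δ : ℝ, 0 < δ ∧ ∃ C : ℝ,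
      ∀ (H : Type) [Group H] (ι : Circle →* H) (x : HeightOneSpectrum (𝓞 K) → H)
        (Φ : ℕ → H → ℂ) (w : ℕ → ℤ), (∀ j h, ‖Φ j h‖ ≤ 1) →
        (∀ j g h, Φ j (g * h * g⁻¹) = Φ j h) →
        (∀ j (a : Circle) h, Φ j (ι a * h) = (a : ℂ) ^ w j * Φ j h) →
        ∃ E : Set ℕ,
          (∀ X : ℕ, 1 ≤ X → (({k : ℕ | k ∈ E ∧ 1 ≤ k ∧ k ≤ X}.ncard : ℕ) : ℝ) ≤
            C * (X : ℝ) ^ (1 - δ)) ∧
          ∀ k : ℕ, 1 ≤ k → k ∉ E → ∀ y, IsTwist 𝔪 ψ ι k x y →
            ∀ N : ℕ, (Real.log k) ^ A ≤ N → (N : ℝ) ≤ (k : ℝ) ^ b → ∀ j : ℕ,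
              ‖avg (fun v => Φ j (y v)) N -
                avg (fun v => circleAvg fun a => Φ j (ι a * x v)) N‖ ≤
                  (j + 1) * (|(w j : ℝ)| + 1) * (N : ℝ) ^ (-θ)) ∧
    (∀ B δ ε : ℝ, 0 < B → 0 < δ → δ < 1 → 0 < ε → ∃ X₀ : ℕ, ∀ X : ℕ, X₀ ≤ X →
      (X : ℝ) ^ (1 - δ) ≤ (({k : ℕ | 1 ≤ k ∧ k ≤ X ∧ ∀ v : HeightOneSpectrum (𝓞 K),
        (Ideal.absNorm v.asIdeal : ℝ) ≤ B * Real.log X →
          ‖(ψ (Ideal.relNorm (𝓞 F) v.asIdeal) : ℂ) ^ k - 1‖ ≤ ε}.ncard : ℕ) : ℝ)) :=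
  ⟨fun H _ _ _ _ _ _ ι hι hιc 𝓕 h𝓕 hcl c η hc0 hc hη =>
      Pool.Agent.H4.Hk.part1 F K hF σ hσ 𝔪 h𝔪 m hm ψ hψ A hA H ι hι hιc 𝓕 h𝓕 hcl c η hc0 hc hη,
    fun b hb => Pool.Agent.H4.Hk.part2 F K hF σ hσ 𝔪 h𝔪 m hm ψ hψ A b hA hb,
    fun B δ ε hB hδ hδ1 hε => Pool.Agent.H4.Hk.part3 F K ψ B δ ε hB hδ hδ1 hε⟩

end Pool.Agent.Results.MP_4c4ce6_nt.AlmostAllHeckeTwists
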